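import Pool.Agent.R882.CTow

/-!
# Tensor differentials and unirationality for the images of towers of nondegenerate complete
intersections

A tower (`Tower`) is a sequence of generically finite maps `V 0 ⇢ V 1 ⇢ ... ⇢ V k = (ℂ^*) ^ n`,
`n ≥ 1`, where each `V i`, `i < k`, is a component, of dimension `n`, of the set of common zeros in a
torus `(ℂ^*) ^ (n + q)` of a system `f` of Laurent polynomials which is nondegenerate in the sense of
Khovanskii, with arbitrary Newton polytopes, and `V (i + 1)` is the image of `V i` under monomials
`t l = x ^ (w l)`, where `ℂ(V i) = ℂ(V (i + 1))(y)` for a monomial `y = x ^ v`. (`k = 0` is allowed: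
`V 0` is then rational. A typical tower is given by a triangular system `f 1 (t, y 1) = 0`,
`f 2 (t, y 1, y 2) = 0`, ..., `f k (t, y 1, ..., y k) = 0`.) Let `b i` be the degree of `V i` over
`V (i + 1)`. It is assumed that there are columns for `s i = s / (b 0 ⋯ b (i - 1))` in the Fine
interior of the Newton polytopes of `V i`: for each divisor `c < b i` of `b i` an `M` with
`s i ≤ c (M + 1)` such that the `u + j v` and the `u + j v + M w l` are in the Fine interior for all
`j < c`. (If `b i` is a prime number: `u` and the `u + (s i - 1) w l` are in the Fine interior.)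

Let `V 0 ⇢ W` be any dominant rational map of degree `r`; nothing is assumed about the map (it need
not be a quotient by a group and has no relation to the tower) or about `W`.

(1) Let there be columns for `s = r`. If the smooth projective models of `W` have no nonzero
holomorphic tensor differential of degree `n = dim W`, that is, `H⁰ (W, (Ω¹) ^ ⊗ n) = 0`, then `W` is
unirational, in particular rationally connected. In fact `p_g(W) = 0` is enough.

(2) Let there be columns for `s = 2 r`. Then `W` is of general type or unirational.

Proof: if `p_g(W) = 0` and `V i ⇢ W` is a rational map then the traces to `W` of the forms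
`A(t) x ^ u y ^ j Res`, where `Res` is the residue form on `V i` and `A` has degree at most `M`, are
zero, and this implies that the map factors through `V i ⇢ V (i + 1)` (the criterion of
`MP_e06174_ag.ImagesOverUniruled` of this team, without the uniruledness of the base). So the map
`V 0 ⇢ W` factors through `V k`, which is rational. A canonical form is a tensor differential of
degree `n`.
-/

set_option autoImplicit false
set_option linter.overlappingInstances false
set_option linter.unusedSectionVars false
set_option maxHeartbeats 4000000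
set_option synthInstance.maxHeartbeats 400000

open FF Module Pool.Agent Pool.Agent.W602.GT Pool.Agent.R885
open Pool.Agent.W619.TW (IsUnirational)

namespace Pool.Agent.Results.MP_4329d7_ag.ImagesOfTowers

/-- The Laurent polynomials `f l` are nondegenerate: the initial parts `ini v (f l)` have linearly
independent logarithmic gradients at all their common zeros in the torus. -/
def Nondegenerate {r q : ℕ} (f : Fin q → (Fin r → ℤ) →₀ ℂ) : Prop :=
  ∀ v : Fin r → ℤ, ∀ c : Fin r → ℂ, (∀ i, c i ≠ 0) → (∀ l, ev c (ini v (f l)) = 0) →
    LinearIndependent ℂ fun l => gr c (ini v (f l))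

/-- `x` is the generic point of a subvariety, with function field `K`, of the set of common zeros
of the `f l` in the torus `(ℂ^*) ^ r`. -/
def IsGenericPoint {K : Type} [Field K] [Algebra ℂ K] {r q : ℕ} (f : Fin q → (Fin r → ℤ) →₀ ℂ)
    (x : Fin r → K) : Prop :=
  (∀ i, x i ≠ 0) ∧ (∀ l, ev x (f l) = 0) ∧ IntermediateField.adjoin ℂ (Set.range x) = ⊤

/-- The integral vector `u` is in the Fine interior of the Minkowski sum of the Newton polytopes of
the `f l`. -/
def InFine {r q : ℕ} (f : Fin q → (Fin r → ℤ) →₀ ℂ) (u : Fin r → ℤ) : Prop :=
  ∀ v : Fin r → ℤ, v ≠ 0 → 1 + ∑ l, mn v (f l) ≤ u ⬝ᵥ v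

/-- For all divisors `c < b` of `b` there is a column of length `c` and of width `M`,
`s ≤ c (M + 1)`, in the Fine interior, in the direction `v`. -/
def HasColumns {m q N : ℕ} (f : Fin q → (Fin m → ℤ) →₀ ℂ) (v : Fin m → ℤ)
    (w : Fin N → Fin m → ℤ) (b s : ℕ) : Prop :=
  ∀ c : ℕ, c ∣ b → c < b → ∃ (M : ℕ) (u : Fin m → ℤ), s ≤ c * (M + 1) ∧
    ∀ j < c, InFine f (u + (j : ℤ) • v) ∧ ∀ l, InFine f (u + (j : ℤ) • v + (M : ℤ) • w l)

/-- `K` is the function field of the first variety of a tower of varieties of dimension `n` with
columns for `s`: either `K` is the field of rational functions in `n` variables, or it is the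
function field of a component, with generic point `x`, of a nondegenerate complete intersection with
columns for `s`, and the subfield `ℂ(t)`, generated by the monomials `t l = x ^ (w l)`, with
`K = ℂ(t)(x ^ v)` of degree `b` over `ℂ(t)`, is the function field of the first variety of a tower
with columns for `s / b`. -/
inductive Tower (n : ℕ) : ∀ (K : Type) [Field K] [Algebra ℂ K], ℕ → Prop
  | rational {K : Type} [Field K] [Algebra ℂ K] {s : ℕ} (t : Fin n → K)
      (indep : AlgebraicIndependent ℂ t) (gen : IntermediateField.adjoin ℂ (Set.range t) = ⊤) :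
      Tower n K s
  | cover {K : Type} [Field K] [Algebra ℂ K] {s q N : ℕ} (f : Fin q → (Fin (n + q) → ℤ) →₀ ℂ)
      (nondeg : Nondegenerate f) (x : Fin (n + q) → K) (point : IsGenericPoint f x)
      (v : Fin (n + q) → ℤ) (w : Fin N → Fin (n + q) → ℤ) (t : Fin N → K)
      (mono : ∀ l, t l = R885.mono x (w l))
      (fin : FiniteDimensional (IntermediateField.adjoin ℂ (Set.range t)) K)
      (prim : IntermediateField.adjoin (IntermediateField.adjoin ℂ (Set.range t))
        {R885.mono x v} = ⊤)
      (col : HasColumns f v w
        (Module.finrank (IntermediateField.adjoin ℂ (Set.range t)) K) s)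
      (base : Tower n (IntermediateField.adjoin ℂ (Set.range t))
        (s / Module.finrank (IntermediateField.adjoin ℂ (Set.range t)) K)) :
      Tower n K s

/-- `H⁰ (W, (Ω¹) ^ ⊗ m) = 0` for the smooth projective varieties `W` of dimension `n` with the
function field `L`: all `L`-multilinear functions of `m` rational vector fields whose values on the
vector fields which are regular at `P` are regular at `P`, for all prime divisors `P`, are zero. -/
def NoTensors (L : Type) [Field L] [Algebra ℂ L] (n m : ℕ) : Prop :=
  ∀ T : MultilinearMap L (fun _ : Fin m => Derivation ℂ L L) L,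
    (∀ P : Place ℂ L, Divisorial n P → ∀ D : Fin m → Derivation ℂ L L, (∀ j, DerReg P (D j)) →
      P.Reg (T D)) → T = 0

/-- The geometric genus of the variety with the function field `L` is zero. -/
def GenusZero (L : Type) [Field L] [Algebra ℂ L] (n : ℕ) : Prop :=
  ∀ ω : (Fin n → Derivation ℂ L L) → L, IsPluri 1 ω →
    (∀ P : Place ℂ L, Divisorial n P → RegAt P ω) → ∀ D, ω D = 0

theorem tower_aux {n : ℕ} (hn : 1 ≤ n) {K : Type} [i1 : Field K] [i2 : Algebra ℂ K] {s : ℕ}
    (h : Tower n K s) : Algebra.trdeg ℂ K = (n : ℕ) →
    ∀ (L : Type) [Field L] [Algebra ℂ L] [Algebra L K] [IsScalarTower ℂ L K]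
      [FiniteDimensional L K],
      (s = Module.finrank L K → GenusZero L n → IsUnirational ℂ L n) ∧
      (s = 2 * Module.finrank L K → ¬ GeneralType ℂ L n → IsUnirational ℂ L n) := by
  induction h with
  | rational t indep gen =>
    intro _ L _ _ _ _ _
    exact ⟨fun _ _ => Pool.Agent.TH466.QT.unirational_of_sub indep gen,
      fun _ _ => Pool.Agent.TH466.QT.unirational_of_sub indep gen⟩
  | @cover K _ _ s q N f nondeg x point v w t mono fin prim col base ih =>
    intro hK L _ _ _ _ _
    obtain ⟨hbase, hadj, hpos⟩ := Pool.Agent.R882.LT.col_positive nondeg point.1 point.2.1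
      point.2.2 hK mono prim
    obtain ⟨h1, h2⟩ := Pool.Agent.R882.Over.factors_step hn hbase L
    have hfac : Pool.Agent.R882.Over.FactorsThrough L (Fin.cons 1 t : Fin (N + 1) → K) →
        ∀ g : L, algebraMap L K g ∈ IntermediateField.adjoin ℂ (Set.range t) := by
      unfold Pool.Agent.R882.Over.FactorsThrough
      rw [hadj]
      exact id
    have hK' : Algebra.trdeg ℂ (IntermediateField.adjoin ℂ (Set.range t)) = (n : ℕ) :=
      Pool.Agent.Y184.NT.trdeg_below (K := K) hK
    have hb : 0 < Module.finrank (IntermediateField.adjoin ℂ (Set.range t)) K :=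
      Module.finrank_pos
    refine ⟨fun hs hg => ?_, fun hs hg => ?_⟩
    · have h3 := hfac (h1 (hs ▸ hpos s col) hg)
      obtain ⟨j1, j2, j3, hdeg⟩ := Pool.Agent.R882.LT.factor_alg (N := 0) L h3
      refine (ih hK' L).1 ?_ hg
      rw [hs, hdeg, Nat.mul_div_cancel _ hb]
    · have h3 := hfac (h2 (hs ▸ hpos s col) hg)
      obtain ⟨j1, j2, j3, hdeg⟩ := Pool.Agent.R882.LT.factor_alg (N := 0) L h3
      refine (ih hK' L).2 ?_ hg
      rw [hs, hdeg, ← mul_assoc, Nat.mul_div_cancel _ hb]

/-- **Images of towers of nondegenerate complete intersections.** Let `K` be the function field of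
the first variety `V` of a tower, of dimension `n ≥ 1`, and let `V ⇢ W` be a dominant rational map of
finite degree, `L` the function field of `W`.
(1) If the tower has columns for `[K : L]` and `W` has no nonzero holomorphic tensor differential of
degree `n`, or only `p_g(W) = 0`, then `W` is unirational.
(2) If the tower has columns for `2 [K : L]` then `W` is of general type or unirational. -/
theorem result {n : ℕ} (hn : 1 ≤ n) {K : Type} [Field K] [Algebra ℂ K]
    (hK : Algebra.trdeg ℂ K = (n : ℕ))
    (L : Type) [Field L] [Algebra ℂ L] [Algebra L K] [IsScalarTower ℂ L K]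
    [FiniteDimensional L K] :
    (Tower n K (Module.finrank L K) →
      (NoTensors L n n → IsUnirational ℂ L n) ∧ (GenusZero L n → IsUnirational ℂ L n)) ∧
    (Tower n K (2 * Module.finrank L K) → GeneralType ℂ L n ∨ IsUnirational ℂ L n) := by
  have hL : Algebra.trdeg ℂ L = (n : ℕ) := Pool.Agent.Y184.NT.trdeg_below (K := K) hK
  refine ⟨fun h => ⟨fun h1 => ?_, fun h1 => ?_⟩, fun h => ?_⟩
  · exact (tower_aux hn h hK L).1 rfl (Pool.Agent.R882.LT.genusZero_of_noTensors hL h1)
  · exact (tower_aux hn h hK L).1 rfl h1
  · by_cases hg : GeneralType ℂ L n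
    · exact Or.inl hg
    · exact Or.inr ((tower_aux hn h hK L).2 rfl hg)

end Pool.Agent.Results.MP_4329d7_ag.ImagesOfTowers
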