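import Pool.Agent.R871.SG.PairA

/-!
MP_4329d7_ag, Q1: pairs of points on rational curves and on entire curves of slow growth.
-/

set_option autoImplicit false

namespace Pool.Agent.Results.MP_4329d7_ag.SlowCurvesPairs

open MvPolynomial MeasureTheory Pool.Agent.R871.SG

/-- Let `X = {F = 0}` be a projective variety in `ℙⁿ`. Let `μ` be a measure on the space
`ℂⁿ⁺¹ × ℂⁿ⁺¹` of pairs of homogeneous coordinates which is finite on compact sets; for instance, the
volume of the product of two copies of the cone over `X`, or the point mass at a pair of points. The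
set of pairs of points of `X` on one rational curve in `X` has measure zero, if and only if there is a
function `φ` with `φ r / log r → ∞` for `r → ∞` such that the set of pairs of points on one
entire curve `f` in `X` with `log ‖f z‖ ≤ φ r` for `‖z‖ ≤ r`, for arbitrarily large `r`, has measure
zero. -/
theorem result {n : ℕ} {ι : Type} (F : ι → MvPolynomial (Fin (n + 1)) ℂ)
    (hF : ∀ i, ∃ d, (F i).IsHomogeneous d) (μ : Measure (Pr n)) [IsFiniteMeasureOnCompacts μ] :
    μ {p | JoinRat F p.1 p.2} = 0 ↔
      ∃ φ : ℝ → ℝ, Grows φ ∧ μ {p | JoinSlow F φ p.1 p.2} = 0 :=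
  measure_pairs F hF μ

end Pool.Agent.Results.MP_4329d7_ag.SlowCurvesPairs
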