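import Pool.Agent.R887.TensF

/-!
The holomorphic tensor differentials on the varieties with multi-valued rational maps of large degree
from a fixed variety are determined by their values at a general point.
-/

set_option autoImplicit false

open FF Pool.Agent.W602.GT Pool.Agent.Y172 Pool.Agent.R887

/-- Let `X'` be a normal projective variety of dimension `n ≥ 1`, with generic point `y'`, and `S` a
finite set of prime divisors of `X'`. There is a constant `C`, which depends only on `X'` and `S`,
with the following properties. Let `X` be a (normal or smooth) projective variety of dimension `n`,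
with function field `K` and generic point `y`, and `X' ← X'' → X` a multi-valued rational map: a
variety `X''` with a generically finite rational map `p` to `X'`, unramified over the prime divisors
of `X'` which are not in `S`, and a dominant rational map `f` to `X`. (`X'' = X'`, `p = id` is the
case of a rational map.) Let the intersection number `(f^* H)^(n-1) (p^* H')`, `H` and `H'` being
hyperplane sections of `X` and `X'`, be at most `c deg f`.

If `c C r n^r < 1`, then the holomorphic tensor differentials of degree `r` on (a resolution of
singularities of) `X` which are linearly independent over `ℂ` are linearly independent over `K`,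
that is, at the general point of `X`, and their number is at most `n^r`. In particular, if there are
such maps for all `c > 0`, then this holds for all `r`. -/
theorem Pool.Agent.Results.MP_4329d7_ag.TensorDifferentialsBound.result
    {K' : Type} [Field K'] [Algebra ℂ K'] {N' n : ℕ} {y' : Fin (N' + 1) → K'}
    (hy' : NormalModel y') (hn' : Algebra.trdeg ℂ K' = n) (hn0 : 0 < n) {S : Set (Place ℂ K')}
    (hS : S.Finite) :
    ∃ C : ℕ, 0 < C ∧ ∀ (K L : Type) [Field K] [Algebra ℂ K] [Field L] [Algebra ℂ L] (N : ℕ)
      (y : Fin (N + 1) → K), NormalModel y → Algebra.trdeg ℂ K = n →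
      ∀ (φ : K →ₐ[ℂ] L) (ψ : K' →ₐ[ℂ] L),
      FiniteDimensional ψ.fieldRange L → UnramifiedOutside ψ y' S →
      ∀ (r : ℕ) (c : ℝ), MultiDegreeLe φ ψ y y' (n - 1) 1 c → c * (C * r * n ^ r) < 1 →
      ∀ (l : ℕ) (τ : Fin l → Tensor K r), (∀ i, HolomorphicTensor n (τ i)) →
      LinearIndependent ℂ τ → LinearIndependent K τ ∧ l ≤ n ^ r := by
  obtain ⟨C, hC, h⟩ := hol_one hy' hn' hn0 hS
  exact ⟨C, hC, fun K L _ _ _ _ N y hy hn φ ψ hψ hun r c hc hlt l τ hτ hind =>
    h hy hn φ ψ hψ hun hc hlt hτ hind⟩
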