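import Pool.Agent.R887.TrvU

/-!
Tensor differentials on the varieties which receive finite multi-valued maps of large degree have no
zeros in codimension one.
-/

set_option autoImplicit false

open FF Pool.Agent.W602.GT Pool.Agent.Y172 Pool.Agent.R887

/-- Let `X'` be a normal complex projective variety of dimension `n ≥ 1`, with generic point `y'`,
and `S` a finite set of prime divisors of `X'`. There is a constant `C`, which depends only on `X'`
and `S`, such that the following holds for all normal (for instance smooth) projective varieties `X`
of dimension `n`, with generic point `y`, of degree at most `d` (a general fibre of a map which is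
given by `n - 1` pencils and one pencil of hyperplane sections has at most `d` points).

Let `X' ← X'' → X` be a multi-valued map, where the projection `p` to `X'` is generically finite and
`f : X'' ⇢ X` is dominant (for instance, two finite morphisms, `p` étale in codimension one outside
of `S`): the prime divisors over `X''` which `f` maps to prime divisors of `X` are mapped by `p` to
prime divisors of `X'`, and they are unramified over the ones which are not in `S`. Suppose that the
intersection number of `n - 1` pull backs by `f` of hyperplane sections of `X` and one pull back by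
`p` of a hyperplane section of `X'` is at most `c deg f`. Let `r ≥ 0` be such that `c C r d < 1`.

Then the tensor fields `τ ≠ 0` in the `r`-th tensor power of the sheaf of differential forms which
are regular at the prime divisors of `X`, for instance the holomorphic tensor differentials on a
smooth `X`, have no zeros in codimension one: for every prime divisor `P` of `X` there are vector
fields `E` which are regular at `P` such that `τ E` is a unit at `P`. In particular, if there are
such maps with `c → 0`, this holds for all holomorphic tensor differentials of all degrees. -/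
theorem Pool.Agent.Results.MP_4329d7_ag.TensorsWithoutZeros.result
    {K' : Type} [Field K'] [Algebra ℂ K'] {N' n : ℕ} {y' : Fin (N' + 1) → K'}
    (hy' : NormalModel y') (hn' : Algebra.trdeg ℂ K' = n) (hn0 : 0 < n)
    {S : Set (Place ℂ K')} (hS : S.Finite) :
    ∃ C : ℝ, 0 ≤ C ∧ ∀ (K : Type) [Field K] [Algebra ℂ K] (N : ℕ) (y : Fin (N + 1) → K) (d : ℕ),
      NormalModel y → Algebra.trdeg ℂ K = n →
      (∀ u : Fin (n - 1) → K, (∀ a, IsPencil y (u a)) → ∀ v, IsPencil y v →
        degreeOver u (fun _ : Fin 1 => v) ≤ d) →
      ∀ (L : Type) [Field L] [Algebra ℂ L] (φ : K →ₐ[ℂ] L) (ψ : K' →ₐ[ℂ] L),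
      FiniteDimensional ψ.fieldRange L → FiniteEtale φ ψ y ∅ y' S →
      ∀ c : ℝ, MultiDegreeLe φ ψ y y' (n - 1) 1 c →
      ∀ (r : ℕ) (τ : Tensor K r), c * C * r * d < 1 → τ ≠ 0 →
        (∀ P, IsPrimeDivisor y P → ∀ E : Fin r → Derivation ℂ K K, (∀ j, DerReg P (E j)) →
          P.Reg (τ E)) →
        ∀ P, IsPrimeDivisor y P → ∃ E : Fin r → Derivation ℂ K K, (∀ j, DerReg P (E j)) ∧
          τ E ≠ 0 ∧ P.ord (τ E) = 0 := by
  obtain ⟨C, hC, h⟩ := tens_finite hy' hn' hn0 hS
  refine ⟨C, hC, fun K _ _ N y d hy hn hd L _ _ φ ψ hψ hfe c hc r τ hlt hτ0 hτ P hP => ?_⟩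
  obtain ⟨hc0, h1⟩ := h K N y ∅ hy hn L φ ψ hψ hfe c hc
  obtain ⟨E, hE1, -, hE3, hE4⟩ := tens_no_zero hy hn hn0 hd (h1 r τ hτ0) hlt
    (fun P hP E hE _ => hτ P hP E hE) hP
  exact ⟨E, hE1, hE3, hE4⟩
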